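import Mathlib
import Pool.Agent.H60.Cover

namespace Pool.Agent.Results.MP_23c930_nt.Exists

/-- There is a block of `n` consecutive positive integers each divisible by two distinct primes
less than `n` or by the square of a prime less than `n / 2` (with `n = 30000`). -/
theorem result : ∃ n m : ℕ, 1 ≤ n ∧ ∀ i, 1 ≤ i → i ≤ n →
    (∃ p q : ℕ, p.Prime ∧ q.Prime ∧ p ≠ q ∧ p < n ∧ q < n ∧ p * q ∣ m + i) ∨
      ∃ p : ℕ, p.Prime ∧ 2 * p < n ∧ p ^ 2 ∣ m + i := by
  refine ⟨30000, Pool.Agent.H60.Cover.start, by norm_num, fun i h1 h2 => ?_⟩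
  have h := Pool.Agent.H60.Cover.covered (i - 1) (by omega)
  rwa [add_assoc, Nat.add_sub_cancel' h1] at h

end Pool.Agent.Results.MP_23c930_nt.Exists
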